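import Mathlib
import Pool.Agent.Run7.h35.EX.Stm

/-! # Piece SEQ of the project EX (helper67) -/

set_option autoImplicit false
open scoped BigOperators

namespace Run7.h67.EX

open Run7.h35.EX

theorem toReal1 : (1 : ENNReal).toReal = 1 := by simp

theorem summable_l1 {S : Type} (f : l1 S) : Summable fun i => |(f : ∀ _ : S, ℝ) i| := by
  have h := (lp.memℓp f).summable (by rw [toReal1]; norm_num)
  simpa using h

theorem norm_l1 {S : Type} (f : l1 S) : ‖f‖ = ∑' i, |(f : ∀ _ : S, ℝ) i| := by
  rw [lp.norm_eq_tsum_rpow (by rw [toReal1]; norm_num) f]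
  simp

theorem memlp1 {S : Type} (g : ∀ _ : S, ℝ) (h : Summable fun i => |g i|) :
    Memℓp g 1 := by
  apply memℓp_gen
  simpa using h

section blocks

variable {A : ℕ → Type}

/-- a block -/
def bl (f : l1 (Σ n, A n)) (n : ℕ) : A n → ℝ := fun a => (f : ∀ _ : (Σ n, A n), ℝ) ⟨n, a⟩

theorem bl_ext {f g : l1 (Σ n, A n)} (h : ∀ n, bl f n = bl g n) : f = g := by
  apply lp.ext
  funext p
  obtain ⟨n, a⟩ := p
  exact congrFun (h n) a

theorem bl_add (f g : l1 (Σ n, A n)) (n : ℕ) : bl (f + g) n = bl f n + bl g n := by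
  funext a
  simp [bl]

theorem bl_sub (f g : l1 (Σ n, A n)) (n : ℕ) : bl (f - g) n = bl f n - bl g n := by
  funext a
  simp [bl]

theorem bl_smul (c : ℝ) (f : l1 (Σ n, A n)) (n : ℕ) : bl (c • f) n = c • bl f n := by
  funext a
  simp [bl]

theorem bl_zero (n : ℕ) : bl (0 : l1 (Σ n, A n)) n = 0 := by
  funext a
  simp [bl]

variable [∀ n, Fintype (A n)]

theorem bl_summable (f : l1 (Σ n, A n)) : Summable (fun n => ∑ a, |bl f n a|) := by
  have h := (summable_sigma_of_nonneg (fun p => abs_nonneg _)).1 (summable_l1 f)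
  simpa [tsum_fintype, bl] using h.2

theorem bl_norm (f : l1 (Σ n, A n)) : ‖f‖ = ∑' n, ∑ a, |bl f n a| := by
  rw [norm_l1, Summable.tsum_sigma' (fun n => (hasSum_fintype _).summable) (summable_l1 f)]
  simp [tsum_fintype, bl]

theorem bl_le (f : l1 (Σ n, A n)) (n : ℕ) : ∑ a, |bl f n a| ≤ ‖f‖ := by
  rw [bl_norm]
  exact (bl_summable f).le_tsum n fun m _ => Finset.sum_nonneg fun _ _ => abs_nonneg _

theorem bl_mk (g : ∀ n, A n → ℝ) (h : Summable fun n => ∑ a, |g n a|) :
    ∃ f : l1 (Σ n, A n), ∀ n, bl f n = g n := by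
  have hs : Summable (fun p : (Σ n, A n) => |g p.1 p.2|) := by
    refine (summable_sigma_of_nonneg (fun p => abs_nonneg _)).2 ⟨fun n => ?_, ?_⟩
    · exact (hasSum_fintype _).summable
    · simpa [tsum_fintype] using h
  exact ⟨⟨fun p => g p.1 p.2, memlp1 _ hs⟩, fun n => rfl⟩

theorem single_sum (n : ℕ) (g : A n → ℝ) (m : ℕ) (hm : m ≠ n) :
    ∑ a, |(Pi.single n g : ∀ m, A m → ℝ) m a| = 0 := by
  rw [Pi.single_eq_of_ne hm]
  simp

theorem inc_ex (n : ℕ) (g : A n → ℝ) :
    ∃ f : l1 (Σ n, A n), ∀ m, bl f m = (Pi.single n g : ∀ m, A m → ℝ) m := by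
  refine bl_mk _ ?_
  exact summable_of_ne_finset_zero (s := {n}) fun m hm =>
    single_sum n g m (by simpa using hm)

/-- the inclusion of a block -/
noncomputable def inc (n : ℕ) (g : A n → ℝ) : l1 (Σ n, A n) := (inc_ex n g).choose

theorem bl_inc (n : ℕ) (g : A n → ℝ) (m : ℕ) :
    bl (inc n g) m = (Pi.single n g : ∀ m, A m → ℝ) m := (inc_ex n g).choose_spec m

theorem bl_inc_self (n : ℕ) (g : A n → ℝ) : bl (inc n g) n = g := by
  rw [bl_inc, Pi.single_eq_same]

theorem inc_add (n : ℕ) (g g' : A n → ℝ) : inc n (g + g') = inc n g + inc n g' := by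
  refine bl_ext fun m => ?_
  rw [bl_add, bl_inc, bl_inc, bl_inc, Pi.single_add]
  rfl

theorem inc_smul (n : ℕ) (c : ℝ) (g : A n → ℝ) : inc n (c • g) = c • inc n g := by
  refine bl_ext fun m => ?_
  rw [bl_smul, bl_inc, bl_inc, Pi.single_smul]
  rfl

theorem norm_inc (n : ℕ) (g : A n → ℝ) : ‖inc n g‖ = ∑ a, |g a| := by
  rw [bl_norm, tsum_eq_single n]
  · rw [bl_inc_self]
  · intro m hm
    rw [bl_inc]
    exact single_sum n g m hm

end blocks

/-- trivial spaces -/
theorem res_zero_of_subsingleton (X : Type) [NormedAddCommGroup X] [NormedSpace ℝ X]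
    [Subsingleton X] : HasRes 0 X := by
  have h : Subsingleton (l1 Empty) := ⟨fun f g => by
    apply lp.ext
    funext i
    exact i.elim⟩
  refine ⟨Empty, ⟨?_⟩⟩
  exact ContinuousLinearEquiv.equivOfInverse (0 : X →L[ℝ] l1 Empty) (0 : l1 Empty →L[ℝ] X)
    (fun _ => Subsingleton.elim _ _) (fun _ => Subsingleton.elim _ _)

theorem t_SEQ : S_BLK → S_HOM → S_SEQ := by
  intro hBLK hHOM A B D _ _ _ a b M hma hmb hlow hba hex hsplit
  obtain ⟨a', ha'⟩ := hBLK A B a M hma
  obtain ⟨b', hb'⟩ := hBLK B D b M hmb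
  have ha : ∀ f n, bl (a' f) n = a n (bl f n) := fun f n => funext fun k => ha' f n k
  have hb : ∀ f n, bl (b' f) n = b n (bl f n) := fun f n => funext fun k => hb' f n k
  -- bounded below
  have h1 : ∀ f, ‖f‖ ≤ M * ‖a' f‖ := by
    intro f
    rw [bl_norm f, bl_norm (a' f), ← tsum_mul_left]
    refine Summable.tsum_le_tsum (fun n => ?_) (bl_summable f) ((bl_summable (a' f)).mul_left M)
    rw [ha]
    exact hlow n _
  have hinj : Function.Injective a' := by
    rw [injective_iff_map_eq_zero]
    intro f hf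
    have := h1 f
    rw [hf, norm_zero, mul_zero] at this
    exact norm_le_zero_iff.1 this
  have hcomp : ∀ f, b' (a' f) = 0 := by
    intro f
    refine bl_ext fun n => ?_
    rw [hb, ha, hba, bl_zero]
  -- exactness
  have hker : ∀ g, b' g = 0 → ∃ f, a' f = g := by
    intro g hg
    have hblk : ∀ n, ∃ f : A n → ℝ, a n f = bl g n := by
      intro n
      obtain ⟨f, hf⟩ := hex n (bl g n)
      have h2 : b n (bl g n) = 0 := by rw [← hb, hg, bl_zero]
      rw [h2] at hf
      simp only [Pi.zero_apply, abs_zero, Finset.sum_const_zero, mul_zero] at hf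
      refine ⟨f, ?_⟩
      funext k
      have h3 := (Finset.sum_eq_zero_iff_of_nonneg (fun _ _ => abs_nonneg _)).1
        (le_antisymm hf (Finset.sum_nonneg fun _ _ => abs_nonneg _)) k (Finset.mem_univ k)
      have h4 := abs_eq_zero.1 h3
      linarith
    choose F hF using hblk
    have hs : Summable fun n => ∑ k, |F n k| := by
      refine Summable.of_nonneg_of_le (fun n => Finset.sum_nonneg fun _ _ => abs_nonneg _)
        (fun n => ?_) ((bl_summable g).mul_left M)
      rw [← hF n]
      exact hlow n _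
    obtain ⟨f, hf⟩ := bl_mk F hs
    refine ⟨f, bl_ext fun n => ?_⟩
    rw [ha, hf, hF]
  -- controlled preimages
  have hctl : ∀ g, ∃ g', b' g' = b' g ∧ ‖g'‖ ≤ (|M| + 1) * ‖b' g‖ := by
    intro g
    choose F hF using fun n => hex n (bl g n)
    have hs1 : Summable fun n => ∑ k, |bl g n k - a n (F n) k| := by
      refine Summable.of_nonneg_of_le (fun n => Finset.sum_nonneg fun _ _ => abs_nonneg _)
        (fun n => (hF n).trans (le_of_eq ?_)) ((bl_summable (b' g)).mul_left M)
      rw [hb]
    obtain ⟨g', hg'⟩ := bl_mk (fun n k => bl g n k - a n (F n) k) hs1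
    have e : b' g' = b' g := by
      refine bl_ext fun n => ?_
      rw [hb, hb, hg']
      have : (fun k => bl g n k - a n (F n) k) = bl g n - a n (F n) := rfl
      rw [this, map_sub, hba, sub_zero]
    refine ⟨g', e, ?_⟩
    have h2 : ‖g'‖ ≤ M * ‖b' g‖ := by
      rw [bl_norm g', bl_norm (b' g), ← tsum_mul_left]
      refine Summable.tsum_le_tsum (fun n => ?_) (bl_summable g')
        ((bl_summable (b' g)).mul_left M)
      rw [hg', hb]
      exact hF n
    have h3 : M ≤ |M| + 1 := (le_abs_self M).trans (by linarith)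
    exact h2.trans (mul_le_mul_of_nonneg_right h3 (norm_nonneg _))
  -- the range is closed
  have hc : IsClosed (LinearMap.range b'.toLinearMap : Set (l1 (Σ n, D n))) := by
    let f : NormedAddGroupHom (l1 (Σ n, B n)) (l1 (Σ n, D n)) :=
      (b'.toLinearMap.toAddMonoidHom).mkNormedAddGroupHom ‖b'‖ (fun x => b'.le_opNorm x)
    have hf : ∀ x, f x = b' x := fun _ => rfl
    let K : AddSubgroup (l1 (Σ n, D n)) := (LinearMap.range b'.toLinearMap).toAddSubgroup
    have hyp : f.SurjectiveOnWith K (|M| + 1) := by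
      rintro h ⟨g, rfl⟩
      obtain ⟨g', e, hg'⟩ := hctl g
      exact ⟨g', e, hg'⟩
    have h2 := controlled_closure_of_complete (by positivity : 0 < |M| + 1) one_pos hyp
    have h3 : K.topologicalClosure ≤ K := by
      intro y hy
      obtain ⟨g, hg, -⟩ := h2 y hy
      exact ⟨g, hg⟩
    have h4 : closure (K : Set (l1 (Σ n, D n))) ⊆ (K : Set (l1 (Σ n, D n))) := h3
    have h5 : IsClosed (K : Set (l1 (Σ n, D n))) := isClosed_of_closure_subset h4
    exact h5
  have hcI : IsClosed ((LinearMap.range b'.toLinearMap : Submodule ℝ (l1 (Σ n, D n))) :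
    Set (l1 (Σ n, D n))) := hc
  have hrange : LinearMap.range a'.toLinearMap = LinearMap.ker b'.toLinearMap := by
    ext g
    constructor
    · rintro ⟨f, rfl⟩
      exact hcomp f
    · intro hg
      obtain ⟨f, hf⟩ := hker g hg
      exact ⟨f, hf⟩
  -- no resolution of length one
  have hno1 : ¬ HasRes 1 (l1 (Σ n, D n) ⧸ LinearMap.range b'.toLinearMap) := by
    rintro ⟨S', q, hq, T, hT⟩
    obtain ⟨h, hh⟩ := hHOM _ _ _ a' b' hinj hrange hc ⟨S', q, hq, T, hT⟩
    have hh' : ∀ f, h (a' f) = f := fun f => by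
      have := congrArg (fun φ : l1 (Σ n, A n) →L[ℝ] l1 (Σ n, A n) => φ f) hh
      exact this
    have hn : ∀ n : ℕ, (n : ℝ) ≤ ‖h‖ := by
      intro n
      let Sn : (B n → ℝ) →ₗ[ℝ] (A n → ℝ) :=
        { toFun := fun g => bl (h (inc n g)) n
          map_add' := fun g g' => by rw [inc_add, map_add, bl_add]
          map_smul' := fun c g => by rw [inc_smul, map_smul, bl_smul]; rfl }
      refine hsplit n Sn (fun f => ?_) ‖h‖ (fun g => ?_)
      · have e : inc n (a n f) = a' (inc n f) := by
          refine bl_ext fun m => ?_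
          rw [ha, bl_inc, bl_inc]
          by_cases hm : m = n
          · subst hm
            rw [Pi.single_eq_same, Pi.single_eq_same]
          · rw [Pi.single_eq_of_ne hm, Pi.single_eq_of_ne hm, map_zero]
        show bl (h (inc n (a n f))) n = f
        rw [e, hh', bl_inc_self]
      · show ∑ k, |bl (h (inc n g)) n k| ≤ _
        refine (bl_le _ n).trans ((h.le_opNorm _).trans (le_of_eq ?_))
        rw [norm_inc]
    obtain ⟨n, hn'⟩ := exists_nat_gt ‖h‖
    exact absurd (hn n) (not_le.2 hn')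
  refine ⟨l1 (Σ n, D n) ⧸ LinearMap.range b'.toLinearMap, inferInstance, inferInstance,
    inferInstance, ?_, hno1, ?_⟩
  · -- the resolution of length two
    refine ⟨(Σ n, D n), (LinearMap.range b'.toLinearMap).mkQL, ?_, ?_⟩
    · exact Submodule.mkQ_surjective _
    · have hmem : ∀ g, b' g ∈ LinearMap.ker ((LinearMap.range b'.toLinearMap).mkQL).toLinearMap := by
        intro g
        show (LinearMap.range b'.toLinearMap).mkQ (b' g) = 0
        rw [Submodule.mkQ_apply, Submodule.Quotient.mk_eq_zero]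
        exact ⟨g, rfl⟩
      let q1 : l1 (Σ n, B n) →L[ℝ]
          LinearMap.ker ((LinearMap.range b'.toLinearMap).mkQL).toLinearMap :=
        b'.codRestrict _ hmem
      refine ⟨(Σ n, B n), q1, ?_, ?_⟩
      · rintro ⟨y, hy⟩
        have hy' : (LinearMap.range b'.toLinearMap).mkQ y = 0 := hy
        rw [Submodule.mkQ_apply, Submodule.Quotient.mk_eq_zero] at hy'
        obtain ⟨g, hg⟩ := hy'
        exact ⟨g, Subtype.ext hg⟩
      · have hmem1 : ∀ f, a' f ∈ LinearMap.ker q1.toLinearMap := by
          intro f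
          show q1 (a' f) = 0
          exact Subtype.ext (hcomp f)
        have hcl : IsClosed (LinearMap.ker q1.toLinearMap : Set (l1 (Σ n, B n))) :=
          ContinuousLinearMap.isClosed_ker q1
        have hcs : CompleteSpace (LinearMap.ker q1.toLinearMap) := hcl.completeSpace_coe
        let e0 : l1 (Σ n, A n) →L[ℝ] LinearMap.ker q1.toLinearMap := a'.codRestrict _ hmem1
        have hker0 : LinearMap.ker e0.toLinearMap = ⊥ := by
          rw [LinearMap.ker_eq_bot]
          intro x y hxy
          exact hinj (congrArg Subtype.val hxy)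
        have hran0 : LinearMap.range e0.toLinearMap = ⊤ := by
          rw [LinearMap.range_eq_top]
          rintro ⟨g, hg⟩
          have hg' : b' g = 0 := congrArg Subtype.val (show q1 g = 0 from hg)
          obtain ⟨f, hf⟩ := hker g hg'
          exact ⟨f, Subtype.ext hf⟩
        exact ⟨(Σ n, A n), ⟨(ContinuousLinearEquiv.ofBijective e0 hker0 hran0).symm⟩⟩
  · -- no resolution of length zero
    rintro ⟨S, ⟨e⟩⟩
    apply hno1
    refine ⟨S, e.symm.toContinuousLinearMap, e.symm.surjective, ?_⟩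
    have hsub : Subsingleton (LinearMap.ker (e.symm.toContinuousLinearMap).toLinearMap) := by
      refine ⟨fun x y => Subtype.ext ?_⟩
      have hx : e.symm (x : l1 S) = 0 := x.2
      have hy : e.symm (y : l1 S) = 0 := y.2
      exact e.symm.injective (hx.trans hy.symm)
    exact res_zero_of_subsingleton _

end Run7.h67.EX
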